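import Pool.Agent.H90.EH.Targets

/-! # Board hst, module GBC: coordinates in the good bases -/

set_option autoImplicit false

namespace Pool.Agent.H34.EH
open Finset Pool.Agent.H90.EH
open scoped Classical

theorem pf_GBC (h1 : T_INJ) (h2 : T_GBI) : T_GBC := by
  intro V _ _ A AF BF k p v i e xF hp hO hB hxF
  obtain ⟨hinj, hnot⟩ := h1 V A AF k p v hp hO
  have hGB := h2 V A AF BF k p v i hp hO hB
  obtain ⟨y, hy⟩ : ∃ y : V, y = xF + ∑ j, e j (i j) • ∑ i', v j i' := ⟨_, rfl⟩
  obtain ⟨P, hP⟩ : ∃ P : Finset (Fin k × Fin p),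
      P = univ.filter (fun x : Fin k × Fin p => x.2 ≠ i x.1) := ⟨_, rfl⟩
  obtain ⟨f, hf⟩ : ∃ f : Fin k × Fin p → V, f = fun x => v x.1 x.2 := ⟨_, rfl⟩
  obtain ⟨d, hd⟩ : ∃ d : Fin k × Fin p → ℚ, d = fun x => e x.1 x.2 - e x.1 (i x.1) := ⟨_, rfl⟩
  have hG : GB BF v i = BF ∪ P.image f := by rw [hP, hf]; rfl
  -- the bracket lies in the span of `BF`
  have hyB : y ∈ Sp BF := by
    rw [← hB.sp, hy]
    refine Submodule.add_mem _ hxF (Submodule.sum_mem _ fun j _ => Submodule.smul_mem _ _ ?_)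
    exact cone_sp (hO.sum j)
  -- the decomposition
  have hx : xF + ∑ j, ∑ i', e j i' • v j i' = y + ∑ x ∈ P, d x • f x := by
    have e1 : ∑ x ∈ P, d x • f x = ∑ x : Fin k × Fin p, d x • f x := by
      rw [hP, sum_filter]
      refine sum_congr rfl fun x _ => ?_
      by_cases hxi : x.2 ≠ i x.1
      · rw [if_pos hxi]
      · rw [if_neg hxi]
        have hxi' : x.2 = i x.1 := not_not.1 hxi
        rw [hd]
        simp only
        rw [hxi', sub_self, zero_smul]
    have e2 : ∑ x : Fin k × Fin p, d x • f x =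
        ∑ j, ∑ i', (e j i' - e j (i j)) • v j i' := by
      rw [Fintype.sum_prod_type, hd, hf]
    rw [e1, e2, hy, add_assoc, ← sum_add_distrib]
    refine congrArg _ (sum_congr rfl fun j _ => ?_)
    rw [smul_sum, ← sum_add_distrib]
    refine sum_congr rfl fun i' _ => ?_
    rw [← add_smul]
    congr 1
    ring
  -- injectivity
  have hfi : ∀ x ∈ P, ∀ x' ∈ P, f x = f x' → x = x' := by
    intro x _ x' _ hxx
    rw [hf] at hxx
    obtain ⟨a1, a2⟩ := hinj _ _ _ _ hxx
    exact Prod.ext a1 a2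
  have hfB : ∀ x ∈ P, f x ∉ BF := by
    intro x _ hxB
    refine hnot x.1 x.2 ?_
    have : f x ∈ Sp BF := sub_Sp hxB
    rw [← hB.sp] at this
    rw [hf] at this
    exact this
  obtain ⟨c, hc⟩ : ∃ c : V → ℚ, c = fun b => if b ∈ BF then co BF y b else
      ∑ x ∈ P, if f x = b then d x else 0 := ⟨_, rfl⟩
  have hcB : ∀ b ∈ BF, c b = co BF y b := by
    intro b hb
    rw [hc]
    exact if_pos hb
  have hcP : ∀ x ∈ P, c (f x) = d x := by
    intro x hx
    rw [hc]
    simp only
    rw [if_neg (hfB x hx)]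
    rw [sum_eq_single x]
    · rw [if_pos rfl]
    · intro x' hx' hne
      exact if_neg fun h => hne (hfi x' hx' x hx h)
    · intro hx'
      exact absurd hx hx'
  have hdis : Disjoint BF (P.image f) := by
    rw [disjoint_left]
    intro b hb hb'
    obtain ⟨x, hx, rfl⟩ := mem_image.1 hb'
    exact hfB x hx hb
  have hsum : xF + ∑ j, ∑ i', e j i' • v j i' = ∑ b ∈ GB BF v i, c b • b := by
    rw [hx, hG, sum_union hdis, sum_image hfi]
    congr 1
    · rw [sum_congr rfl fun b hb => by rw [hcB b hb]]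
      exact co_spec hyB
    · exact sum_congr rfl fun x hx => by rw [hcP x hx]
  constructor
  · intro j i' hne
    have hm : (j, i') ∈ P := by
      rw [hP]
      exact mem_filter.2 ⟨mem_univ _, hne⟩
    have hmem : v j i' ∈ GB BF v i := by
      rw [hG]
      refine mem_union_right _ (mem_image.2 ⟨(j, i'), hm, ?_⟩)
      rw [hf]
    rw [co_unique hGB.2.1 hsum hmem]
    have := hcP (j, i') hm
    rw [hd, hf] at this
    exact this
  · intro b hb
    have hmem : b ∈ GB BF v i := by
      rw [hG]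
      exact mem_union_left _ hb
    rw [co_unique hGB.2.1 hsum hmem, hcB b hb, hy]

end Pool.Agent.H34.EH
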